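import Pool.Agent.Helper99.MKV.GoalsR

/-! # Packet GDA of the project MKV -/

set_option autoImplicit false

open Finset MeasureTheory ProbabilityTheory Filter
open scoped ENNReal

namespace Pool.Agent.Helper58.MKV

open _root_.Pool.Agent.Helper99.ERW _root_.Pool.Agent.Helper99.EXC _root_.Pool.Agent.Helper99.MKV

/-! ### One environment -/

theorem stp_detS (p : Site 2 → ℕ → ℝ) (F : St → ℝ) (s : St) :
    Pool.Agent.Helper99.MKV.stp (detS p) F s = Pool.Agent.Helper99.EXC.stp p F s := by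
  simp [Pool.Agent.Helper99.MKV.stp, Pool.Agent.Helper99.EXC.stp, detS,
    Pool.Agent.Helper99.MKV.nxt, Pool.Agent.Helper99.EXC.nxt]

theorem hp_detS (p : Site 2 → ℕ → ℝ) (N : ℕ) (s : St) :
    Pool.Agent.Helper99.MKV.hp (detS p) N s = Pool.Agent.Helper99.EXC.hp p N s := by
  induction N generalizing s with
  | zero => rfl
  | succ N ih =>
    have h : Pool.Agent.Helper99.MKV.hp (detS p) N = Pool.Agent.Helper99.EXC.hp p N :=
      funext ih
    unfold Pool.Agent.Helper99.MKV.hp Pool.Agent.Helper99.EXC.hp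
    rw [h, stp_detS]

theorem av_detS (p : Site 2 → ℕ → ℝ) (z : Site 2) (g : ℕ → ℝ) (e : ℕ) :
    av (detS p) z g e = g (e + 1) := by
  simp [av, detS]

theorem psum_succ (a : ℝ) (σ : Stack 2) (m : ℕ) :
    psum a σ (m + 1) - psum a σ m = 2 * σ (0, true) m - a := by
  unfold psum
  rw [Finset.sum_range_succ]
  ring

theorem dat_det {a B : ℝ} {ω : Env 2} (ha0 : 0 < a) (ha1 : a < 1) (hB : 1 ≤ B) (h : ℝ)
    (hω : ∀ z, GSt a B (ω z)) :
    Dat (detS (pw ω)) a (B + |h|) (fun z j => psum a (ω z) j) := by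
  refine ⟨ha0, ha1, ⟨fun _ _ _ => zero_le_one, fun _ _ => by simp [detS], fun z e => ?_,
    fun z e => ?_⟩, by linarith [abs_nonneg h], fun z e => ?_, fun z e => ?_⟩
  · exact ((hω z).1 e).1
  · exact ((hω z).1 e).2
  · exact ((hω z).2.1 e).trans (by linarith [abs_nonneg h])
  · rw [av_detS]
    exact psum_succ a (ω z) e

theorem Th_det (a h : ℝ) (ω : Env 2) (z : Site 2) (e : ℕ) :
    Th (detS (pw ω)) a h (fun z j => psum a (ω z) j) z e = tha a h (ω z) e := by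
  have h1 := psum_succ a (ω z) e
  unfold Th cv tha
  rw [av_detS, av_detS]
  have h2 : (detS (pw ω)).f z e = 2 * ω z (0, true) e := rfl
  rw [h2]
  simp only [h1]
  ring

theorem poi_det {a B : ℝ} {ω : Env 2} (ha0 : 0 < a) (ha1 : a < 1) (hB : 1 ≤ B) (h : ℝ)
    (hU : UCA_stmt) (hω : ∀ z, GSt a B (ω z)) (n : ℕ) (hn : 1 ≤ n) :
    ∃ R : Site 2 → ℕ → ℝ, Poi (detS (pw ω)) a h (B + |h|) (n * (B + |h|) + 2 * (B + |h|))
      (fun z j => psum a (ω z) j) R (fun z _ => thL a h (ω z)) (fun z => epn a h n (ω z)) := by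
  obtain ⟨h1, -, -, h2⟩ := hU a h B ha0 ha1 hB
  have hB0 : 0 ≤ B + |h| := by linarith [abs_nonneg h]
  have hn0 : (0 : ℝ) ≤ n * (B + |h|) := mul_nonneg (Nat.cast_nonneg n) hB0
  choose R hR1 hR2 using fun z => h2 n hn (tha a h (ω z)) (h1 _ (hω z)).1
  refine ⟨R, ⟨by linarith, fun z e => (hR1 z e).trans (by linarith),
    fun z e => (h1 _ (hω z)).2.1, fun z e => by rw [av_detS],
    fun z => ((h1 _ (hω z)).2.2.1 n).1, fun z => ((h1 _ (hω z)).2.2.1 n).2.trans (by linarith),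
    fun z e => ?_⟩⟩
  rw [Th_det, av_detS, hR2 z e]
  have hc : cv (detS (pw ω)) (fun z j => psum a (ω z) j) (fun z _ => thL a h (ω z)) z e = 0 := by
    unfold cv
    rw [av_detS]
    ring
  rw [hc]
  have h3 := (h1 _ (hω z)).2.2.2.2 n hn e
  have h4 : tha a h (ω z) e - thL a h (ω z) + h * 0 -
      (tha a h (ω z) e - (∑ i ∈ Finset.range n, tha a h (ω z) (e + i)) / n) =
      (∑ i ∈ Finset.range n, tha a h (ω z) (e + i)) / n - thL a h (ω z) := by ring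
  rw [h4]
  exact h3

/-- truncated mean -/
noncomputable def tL (a h B' : ℝ) (σ : Stack 2) : ℝ := max (-B') (min B' (thL a h σ))

/-- truncated error -/
noncomputable def eN (a h B' : ℝ) (n : ℕ) (σ : Stack 2) : ℝ :=
  max 0 (min (2 * B') (epn a h n σ))

/-- the random variables of the scales -/
noncomputable def ZN (a h B' : ℝ) (Φ : ℕ → Site 2 → ℝ) (b n k : ℕ) (ω : Env 2) : ℝ :=
  |∑ z ∈ Bx b k, hk Φ k z * tL a h B' (ω z)| +
    ∑ x ∈ Bx b k, |hk Φ k x| * eN a h B' n (ω x)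

theorem det_main (hGQ : GQ_stmt) (hUCA : UCA_stmt) {a B : ℝ} (ha0 : 0 < a) (ha1 : a < 1)
    (hB : 1 ≤ B) {φ : Site 2 → ℝ} {Φ : ℕ → Site 2 → ℝ} {κ C : ℝ} {b k1 : ℕ}
    (hX : Scx a φ Φ κ C b k1) : ∃ c0 η : ℝ, 0 < c0 ∧ c0 ≤ 1 ∧ 0 < η ∧ ∀ ω : Env 2,
      (∀ z, GSt a B (ω z)) → ∀ n : ℕ, 1 ≤ n →
      (∃ᶠ s : ℕ in atTop, ∑ k ∈ Finset.Ico k1 s, ZN a (Df φ 0) (B + |Df φ 0|) Φ b n k ω ≤ η * s) →
      ∀ s0 : St, {z | s0.2 z ≠ 0}.Finite →
        ∃ N : ℕ, c0 ≤ Pool.Agent.Helper99.EXC.hp (pw ω) N s0 := by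
  set h := Df φ 0 with hh
  have hB1 : 1 ≤ B + |h| := by linarith [abs_nonneg h]
  obtain ⟨c0, η, hc0, hc1, hη, H⟩ := hGQ κ C b (B + |h|) hX.kpos hX.cone hX.bone hB1
  refine ⟨c0, η, hc0, hc1, hη, fun ω hω n hn hfr s0 hs0 => ?_⟩
  obtain ⟨R, hR⟩ := poi_det ha0 ha1 hB h hUCA hω n hn
  have hd := dat_det ha0 ha1 hB h hω
  refine (H ℕ Unit (detS (pw ω)) a _ _ R _ _ φ Φ k1 hd hX hR (fun _ => 0) ?_ s0 hs0).imp
    fun N hN => ?_
  swap
  · rw [← hp_detS]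
    exact hN
  · obtain ⟨h1, -, -, -⟩ := hUCA a h B ha0 ha1 hB
    refine hfr.mono fun s hs => le_trans (le_of_eq ?_) hs
    refine Finset.sum_congr rfl fun k _ => ?_
    unfold ZN
    have e1 : ck Φ (fun z j => psum a (ω z) j) b k ((0 : Site 2), fun _ => 0) = 0 := by
      unfold ck VV
      refine Finset.sum_eq_zero fun z _ => ?_
      simp [psum]
    have e2 : VV (fun (z : Site 2) (_ : ℕ) => thL a h (ω z)) (Bx b k) (hk Φ k)
        ((0 : Site 2), fun _ => 0) = ∑ z ∈ Bx b k, hk Φ k z * tL a h (B + |h|) (ω z) := by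
      unfold VV
      refine Finset.sum_congr rfl fun z _ => ?_
      have h2 := abs_le.1 (h1 _ (hω z)).2.1
      unfold tL
      rw [min_eq_right h2.2, max_eq_right h2.1]
    have e3 : ∑ x ∈ Bx b k, |hk Φ k x| * epn a h n (ω x) =
        ∑ x ∈ Bx b k, |hk Φ k x| * eN a h (B + |h|) n (ω x) := by
      refine Finset.sum_congr rfl fun x _ => ?_
      have h2 := (h1 _ (hω x)).2.2.1 n
      unfold eN
      rw [min_eq_right h2.2, max_eq_right h2.1]
    rw [e1, e2, e3, abs_zero, zero_add]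


/-! ### Random environment -/

theorem measurable_tL {a h : ℝ} (B' : ℝ) (hm : Measurable (thL a h)) :
    Measurable (tL a h B') := measurable_const.max (measurable_const.min hm)

theorem measurable_eN {a h : ℝ} (B' : ℝ) {n : ℕ} (hm : Measurable (epn a h n)) :
    Measurable (eN a h B' n) := measurable_const.max (measurable_const.min hm)

theorem tL_le {a h B' : ℝ} (hB : 0 ≤ B') (σ : Stack 2) : |tL a h B' σ| ≤ B' := by
  unfold tL
  rw [abs_le]
  exact ⟨le_max_left _ _, max_le (by linarith) (min_le_left _ _)⟩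

theorem eN_le {a h B' : ℝ} (hB : 0 ≤ B') (n : ℕ) (σ : Stack 2) :
    0 ≤ eN a h B' n σ ∧ eN a h B' n σ ≤ 2 * B' := by
  unfold eN
  exact ⟨le_max_left _ _, max_le (by linarith) (min_le_left _ _)⟩

theorem memLp_of_bd {P : Measure (Env 2)} [IsProbabilityMeasure P] {f : Stack 2 → ℝ}
    (hf : Measurable f) {D : ℝ} (hD : ∀ σ, |f σ| ≤ D) :
    MemLp (fun ω : Env 2 => f (ω 0)) 2 P :=
  MemLp.of_bound (hf.comp (measurable_pi_apply 0)).aestronglyMeasurable D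
    (Eventually.of_forall fun ω => by rw [Real.norm_eq_abs]; exact hD _)

theorem integrable_of_bd {P : Measure (Env 2)} [IsProbabilityMeasure P] {f : Env 2 → ℝ}
    (hf : Measurable f) {D : ℝ} (hD : ∀ σ, |f σ| ≤ D) : Integrable f P :=
  Integrable.of_bound hf.aestronglyMeasurable D
    (Eventually.of_forall fun ω => by rw [Real.norm_eq_abs]; exact hD _)

theorem int_abs_le {P : Measure (Env 2)} [IsProbabilityMeasure P] {f : Env 2 → ℝ}
    (hf : Measurable f) {D : ℝ} (hD : ∀ σ, |f σ| ≤ D) :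
    ∫ ω, |f ω| ∂P ≤ Real.sqrt (∫ ω, f ω ^ 2 ∂P) := by
  have hi : Integrable (fun ω => |f ω|) P :=
    integrable_of_bd hf.abs (fun σ => by rw [abs_abs]; exact hD σ)
  have hi2 : Integrable (fun ω => f ω ^ 2) P :=
    integrable_of_bd (hf.pow_const 2) (D := D ^ 2) (fun σ => by
      rw [abs_pow]
      exact pow_le_pow_left₀ (abs_nonneg _) (hD σ) 2)
  refine Real.le_sqrt_of_sq_le ?_
  set t := ∫ ω, |f ω| ∂P with ht
  have h0 : 0 ≤ ∫ ω, (|f ω| - t) ^ 2 ∂P := integral_nonneg fun ω => sq_nonneg _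
  have h1 : ∫ ω, (|f ω| - t) ^ 2 ∂P = ∫ ω, f ω ^ 2 ∂P - t ^ 2 := by
    have e : ∀ ω, (|f ω| - t) ^ 2 = f ω ^ 2 - 2 * t * |f ω| + t ^ 2 := fun ω => by
      have := sq_abs (f ω)
      nlinarith
    have e1 : ∫ ω, (f ω ^ 2 - 2 * t * |f ω| + t ^ 2) ∂P =
        ∫ ω, (f ω ^ 2 - 2 * t * |f ω|) ∂P + ∫ _ω, t ^ 2 ∂P :=
      integral_add (hi2.sub (hi.const_mul _)) (integrable_const _)
    have e2 : ∫ ω, (f ω ^ 2 - 2 * t * |f ω|) ∂P =
        ∫ ω, f ω ^ 2 ∂P - ∫ ω, 2 * t * |f ω| ∂P := integral_sub hi2 (hi.const_mul _)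
    have e3 : ∫ ω, 2 * t * |f ω| ∂P = 2 * t * t := by rw [integral_const_mul, ← ht]
    have e4 : ∫ _ω, t ^ 2 ∂P = t ^ 2 := by simp
    simp only [e]
    rw [e1, e2, e3, e4]
    ring
  linarith

theorem measurable_ZN {a h : ℝ} (B' : ℝ) (Φ : ℕ → Site 2 → ℝ) (b : ℕ) {n : ℕ}
    (h1 : Measurable (thL a h)) (h2 : Measurable (epn a h n)) (k : ℕ) :
    Measurable (ZN a h B' Φ b n k) := by
  have m1 := measurable_tL B' h1
  have m2 := measurable_eN B' h2
  unfold ZN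
  refine Measurable.add ?_ ?_
  · refine Measurable.abs (Finset.measurable_sum _ fun z _ => ?_)
    exact (m1.comp (measurable_pi_apply z)).const_mul _
  · refine Finset.measurable_sum _ fun z _ => ?_
    exact (m2.comp (measurable_pi_apply z)).const_mul _

theorem ZN_nonneg {a h B' : ℝ} (hB : 0 ≤ B') (Φ : ℕ → Site 2 → ℝ) (b n k : ℕ) (ω : Env 2) :
    0 ≤ ZN a h B' Φ b n k ω := by
  unfold ZN
  exact add_nonneg (abs_nonneg _)
    (Finset.sum_nonneg fun x _ => mul_nonneg (abs_nonneg _) (eN_le hB n _).1)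

theorem part1_le {a h B' : ℝ} (hB : 0 ≤ B') (Φ : ℕ → Site 2 → ℝ) (b k : ℕ) (ω : Env 2) :
    |∑ z ∈ Bx b k, hk Φ k z * tL a h B' (ω z)| ≤ (∑ z ∈ Bx b k, |hk Φ k z|) * B' := by
  refine (Finset.abs_sum_le_sum_abs _ _).trans ?_
  rw [Finset.sum_mul]
  refine Finset.sum_le_sum fun z _ => ?_
  rw [abs_mul]
  exact mul_le_mul_of_nonneg_left (tL_le hB _) (abs_nonneg _)

theorem part2_le {a h B' : ℝ} (hB : 0 ≤ B') (Φ : ℕ → Site 2 → ℝ) (b n k : ℕ) (ω : Env 2) :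
    |∑ x ∈ Bx b k, |hk Φ k x| * eN a h B' n (ω x)| ≤ (∑ z ∈ Bx b k, |hk Φ k z|) * (2 * B') := by
  refine (Finset.abs_sum_le_sum_abs _ _).trans ?_
  rw [Finset.sum_mul]
  refine Finset.sum_le_sum fun z _ => ?_
  rw [abs_mul, abs_abs, abs_of_nonneg (eN_le hB n _).1]
  exact mul_le_mul_of_nonneg_left (eN_le hB n _).2 (abs_nonneg _)

theorem integral_ZN_le (hSTA : STA_stmt) {P : Measure (Env 2)} [IsProbabilityMeasure P]
    (hSE : SE P) {a h B' : ℝ} (hB : 0 ≤ B') (Φ : ℕ → Site 2 → ℝ) (b : ℕ) {n : ℕ}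
    (h1 : Measurable (thL a h)) (h2 : Measurable (epn a h n)) (k : ℕ) :
    ∫ ω, ZN a h B' Φ b n k ω ∂P ≤
      Real.sqrt (∫ ω, (∑ z ∈ Bx b k, hk Φ k z * tL a h B' (ω z)) ^ 2 ∂P) +
        (∑ z ∈ Bx b k, |hk Φ k z|) * ∫ ω, eN a h B' n (ω 0) ∂P := by
  have m1 := measurable_tL B' h1
  have m2 := measurable_eN B' h2
  have mA : Measurable (fun ω : Env 2 => ∑ z ∈ Bx b k, hk Φ k z * tL a h B' (ω z)) :=
    Finset.measurable_sum _ fun z _ => (m1.comp (measurable_pi_apply z)).const_mul _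
  have mE : ∀ x : Site 2, Measurable (fun ω : Env 2 => |hk Φ k x| * eN a h B' n (ω x)) :=
    fun z => (m2.comp (measurable_pi_apply z)).const_mul _
  have mB : Measurable (fun ω : Env 2 => ∑ x ∈ Bx b k, |hk Φ k x| * eN a h B' n (ω x)) :=
    Finset.measurable_sum _ fun z _ => mE z
  have iA := integrable_of_bd (P := P) mA.abs
    (fun ω => by rw [abs_abs]; exact part1_le hB Φ b k ω)
  have iB := integrable_of_bd (P := P) mB (fun ω => part2_le hB Φ b n k ω)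
  have e : ∫ ω, ZN a h B' Φ b n k ω ∂P =
      ∫ ω, |∑ z ∈ Bx b k, hk Φ k z * tL a h B' (ω z)| ∂P +
        ∫ ω, (∑ x ∈ Bx b k, |hk Φ k x| * eN a h B' n (ω x)) ∂P := integral_add iA iB
  rw [e]
  refine add_le_add (int_abs_le mA fun ω => part1_le hB Φ b k ω) (le_of_eq ?_)
  have hbd : ∀ σ, |eN a h B' n σ| ≤ 2 * B' := fun σ => by
    rw [abs_of_nonneg (eN_le hB n _).1]
    exact (eN_le hB n _).2
  obtain ⟨-, -, s3, -⟩ := hSTA P hSE (eN a h B' n) m2 (memLp_of_bd m2 hbd)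
  rw [integral_finsetSum _ fun x _ => integrable_of_bd (mE x) (D := |hk Φ k x| * (2 * B'))
    fun ω => by
      rw [abs_mul, abs_abs]
      exact mul_le_mul_of_nonneg_left (hbd _) (abs_nonneg _), Finset.sum_mul]
  refine Finset.sum_congr rfl fun x _ => ?_
  rw [integral_const_mul, s3 x]

theorem GDA (hSCX : SCX_stmt) (hGQ : GQ_stmt) (hUCA : UCA_stmt) (hFRQ : FRQ_stmt)
    (hSMS : SMS_stmt) (hSTA : STA_stmt) (hMET : MET_stmt) : GDA_stmt := by
  intro P _ hSE a B ha0 ha1 hB hG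
  obtain ⟨φ, Φ, κ, C, b, k1, hX⟩ := hSCX a ha0 ha1
  obtain ⟨c0, η, hc0, hc1, hη, hdet⟩ := det_main hGQ hUCA ha0 ha1 hB hX
  obtain ⟨u1, mT, mE, -⟩ := hUCA a (Df φ 0) B ha0 ha1 hB
  set h := Df φ 0 with hh
  have hB' : 0 ≤ B + |h| := by linarith [abs_nonneg h]
  have mp : ∀ y : Site 2, MeasurePreserving (shift y) P P := fun y =>
    ⟨measurable_shift y, hSE.1 y⟩
  have hGall : ∀ᵐ ω ∂P, ∀ z, GSt a B (ω z) := by
    rw [ae_all_iff]
    intro z
    have h1 := (mp z).quasiMeasurePreserving.ae hG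
    refine h1.mono fun ω hω => ?_
    simpa [shift] using hω
  refine ⟨c0, hc0, hc1, ?_⟩
  suffices hz : ∀ᵐ ω ∂P, ∀ s0 : St, {z | s0.2 z ≠ 0}.Finite →
      ∃ N : ℕ, c0 ≤ Pool.Agent.Helper99.EXC.hp (pw ω) N s0 by
    rw [ae_all_iff]
    intro y
    exact (mp y).quasiMeasurePreserving.ae hz
  -- the good events
  set A : ℕ → Set (Env 2) := fun n => {ω | ∃ᶠ s : ℕ in atTop,
    ∑ k ∈ Finset.Ico k1 s, ZN a h (B + |h|) Φ b n k ω ≤ η * s} with hA
  suffices hU : ∀ᵐ ω ∂P, ∃ n, 1 ≤ n ∧ ω ∈ A n by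
    filter_upwards [hGall, hU] with ω h1 h2
    obtain ⟨n, hn, hω⟩ := h2
    exact hdet ω h1 n hn hω
  obtain ⟨C4, hC4, hcard, -⟩ := hSMS b hX.bone
  have hC0 : 0 ≤ C := zero_le_one.trans hX.cone
  have hsum : ∀ k, k1 ≤ k → ∑ z ∈ Bx b k, |hk Φ k z| ≤ C4 * C := by
    intro k hk1
    calc ∑ z ∈ Bx b k, |hk Φ k z| ≤ ∑ _z ∈ Bx b k, C / 4 ^ k :=
          Finset.sum_le_sum fun z _ => hX.h1 k hk1 z
      _ = ((Bx b k).card : ℝ) * (C / 4 ^ k) := by rw [Finset.sum_const, nsmul_eq_mul]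
      _ ≤ (C4 * 4 ^ k) * (C / 4 ^ k) :=
          mul_le_mul_of_nonneg_right (hcard k) (by positivity)
      _ = C4 * C := by field_simp
  have htL : ∀ σ, |tL a h (B + |h|) σ| ≤ B + |h| := tL_le hB'
  have hmet := hMET P hSE (tL a h (B + |h|)) (measurable_tL _ mT)
    (memLp_of_bd (measurable_tL _ mT) htL) (hk Φ) C b k1 hX.hS hX.h1 hX.hL hX.h0
  have hmet2 : Tendsto (fun k => Real.sqrt
      (∫ ω, (∑ z ∈ Bx b k, hk Φ k z * tL a h (B + |h|) (ω z)) ^ 2 ∂P)) atTop (nhds 0) := by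
    have := (Real.continuous_sqrt.tendsto 0).comp hmet
    rwa [Real.sqrt_zero] at this
  have hI0 : ∀ n, 0 ≤ ∫ ω, eN a h (B + |h|) n (ω 0) ∂P := fun n =>
    integral_nonneg fun ω => (eN_le hB' n _).1
  have key : ∀ n ε, 0 < ε → MeasurableSet (A n) ∧
      1 - (ε + C4 * C * ∫ ω, eN a h (B + |h|) n (ω 0) ∂P) / η ≤ P.real (A n) := by
    intro n ε hε
    refine hFRQ (Env 2) inferInstance P (fun k => ZN a h (B + |h|) Φ b n k) k1 _ η hη
      (fun k => measurable_ZN _ Φ b mT (mE n) k) (fun k _ ω => ZN_nonneg hB' Φ b n k ω)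
      (fun k _ => ?_) ?_
    · refine integrable_of_bd (measurable_ZN _ Φ b mT (mE n) k)
        (D := (∑ z ∈ Bx b k, |hk Φ k z|) * (B + |h|) +
          (∑ z ∈ Bx b k, |hk Φ k z|) * (2 * (B + |h|))) fun ω => ?_
      unfold ZN
      refine (abs_add_le _ _).trans (add_le_add ?_ (part2_le hB' Φ b n k ω))
      rw [abs_abs]
      exact part1_le hB' Φ b k ω
    · filter_upwards [hmet2.eventually (gt_mem_nhds hε), eventually_ge_atTop k1] with k h1 h2
      refine (integral_ZN_le hSTA hSE hB' Φ b mT (mE n) k).trans ?_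
      exact add_le_add h1.le (mul_le_mul_of_nonneg_right (hsum k h2) (hI0 n))
  have hlim : Tendsto (fun n => ∫ ω, eN a h (B + |h|) n (ω 0) ∂P) atTop (nhds 0) := by
    have h0 : (0 : ℝ) = ∫ _ω : Env 2, (0 : ℝ) ∂P := by simp
    rw [h0]
    refine tendsto_integral_of_dominated_convergence (fun _ => 2 * (B + |h|))
      (fun n => ((measurable_eN _ (mE n)).comp (measurable_pi_apply 0)).aestronglyMeasurable)
      (integrable_const _) (fun n => Eventually.of_forall fun ω => ?_) ?_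
    · rw [Real.norm_eq_abs, abs_of_nonneg (eN_le hB' n _).1]
      exact (eN_le hB' n _).2
    · filter_upwards [hG] with ω hω
      have h1 := (u1 _ hω).2.2.2.1
      refine h1.congr fun n => ?_
      have h2 := (u1 _ hω).2.2.1 n
      unfold eN
      rw [min_eq_right h2.2, max_eq_right h2.1]
  -- conclusion
  have hmeas : MeasurableSet {ω : Env 2 | ∃ n, 1 ≤ n ∧ ω ∈ A n} := by
    have : {ω : Env 2 | ∃ n, 1 ≤ n ∧ ω ∈ A n} = ⋃ n, ⋃ (_ : 1 ≤ n), A n := by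
      ext ω
      simp
    rw [this]
    exact MeasurableSet.iUnion fun n => MeasurableSet.iUnion fun _ => (key n 1 one_pos).1
  have hone : (1 : ℝ) ≤ P.real {ω : Env 2 | ∃ n, 1 ≤ n ∧ ω ∈ A n} := by
    have hall : ∀ n ε, 1 ≤ n → 0 < ε →
        1 - (ε + C4 * C * ∫ ω, eN a h (B + |h|) n (ω 0) ∂P) / η ≤
          P.real {ω : Env 2 | ∃ n, 1 ≤ n ∧ ω ∈ A n} := fun n ε hn hε =>
      (key n ε hε).2.trans (measureReal_mono (fun ω hω => ⟨n, hn, hω⟩))
    have hseq : Tendsto (fun n : ℕ => 1 - (1 / ((n : ℝ) + 1) +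
        C4 * C * ∫ ω, eN a h (B + |h|) n (ω 0) ∂P) / η) atTop (nhds (1 - (0 + C4 * C * 0) / η)) :=
      (tendsto_one_div_add_atTop_nhds_zero_nat.add (hlim.const_mul _)).div_const η |>.const_sub 1
    have h2 : (1 : ℝ) - (0 + C4 * C * 0) / η = 1 := by simp
    rw [h2] at hseq
    exact le_of_tendsto hseq ((eventually_ge_atTop 1).mono fun n hn =>
      hall n _ hn (by positivity))
  have hcompl : P.real {ω : Env 2 | ∃ n, 1 ≤ n ∧ ω ∈ A n}ᶜ = 0 := by
    rw [probReal_compl_eq_one_sub hmeas]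
    linarith [measureReal_le_one (μ := P) (s := {ω : Env 2 | ∃ n, 1 ≤ n ∧ ω ∈ A n}),
      hone, measureReal_nonneg (μ := P) (s := {ω : Env 2 | ∃ n, 1 ≤ n ∧ ω ∈ A n}ᶜ)]
  rw [ae_iff]
  have := (measureReal_eq_zero_iff (measure_ne_top P _)).1 hcompl
  exact this

end Pool.Agent.Helper58.MKV
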